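import Mathlib
import Pool.Agent.Helper26.PairDefs
import Pool.Agent.Helper26.ChDefs
import Pool.Agent.Helper26.ChFinal2

set_option autoImplicit false

universe u

namespace Pool.Agent.Helper26.Old.ChateletChar2

open Pool.Agent.Helper26 MvPolynomial

/-- The Brauer-Manin obstruction is the only obstruction to the Hasse principle for Châtelet
surfaces over global fields of characteristic two.  Here `k` is a finite extension of the rational
function field over the field with two elements, its places are the valuation rings `V ≠ ⊤` of
`k`, and `V.valuation.Completion` is the completion of `k` at `V`.  The Châtelet surface is given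
by `y ^ 2 + y * z + a * z ^ 2 = f` for a smooth binary quartic form `f`; local points are given by
their images `x V` in the base line, and for a factorization `f = g * h` into quadratic forms the
local invariant at `V` of the class attached to `a` and `g` vanishes at the local point exactly
when both `g` and `h` take at `x V` values of the norm form. -/
theorem result {k : Type u} [Field k] [Algebra (RatFunc (ZMod 2)) k]
    [FiniteDimensional (RatFunc (ZMod 2)) k] (a : k) (f : MvPolynomial (Fin 2) k)
    (hf : f.IsHomogeneous 4) (hsmooth : IsSmoothForm f)
    (x : ∀ V : ValuationSubring k, Fin 2 → V.valuation.Completion)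
    (hloc : ∀ V : ValuationSubring k, V ≠ ⊤ →
      x V ≠ 0 ∧ IsNormValue (toCompletion V a) (eval₂ (toCompletion V) (x V) f))
    (hBM : ∀ g h : MvPolynomial (Fin 2) k, g.IsHomogeneous 2 → h.IsHomogeneous 2 → f = g * h →
      {V : ValuationSubring k | V ≠ ⊤ ∧
        ¬ (IsNormValue (toCompletion V a) (eval₂ (toCompletion V) (x V) g) ∧
          IsNormValue (toCompletion V a) (eval₂ (toCompletion V) (x V) h))}.Finite ∧
      Even {V : ValuationSubring k | V ≠ ⊤ ∧
        ¬ (IsNormValue (toCompletion V a) (eval₂ (toCompletion V) (x V) g) ∧
          IsNormValue (toCompletion V a) (eval₂ (toCompletion V) (x V) h))}.ncard) :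
    ∃ p : Fin 2 → k, p ≠ 0 ∧ IsNormValue a (eval p f) :=
  chatelet_bm a f hf hsmooth x hloc hBM

end Pool.Agent.Helper26.Old.ChateletChar2
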